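import Pool.Agent.J4H39.SC.Stm

/-! Project SC: (MUP) from (UP) and (TAIL). -/

set_option autoImplicit false

namespace Pool.Agent.J4H79.SC

open Pool.Agent.J4H39 Pool.Agent.J4H39.SC Finset Real Filter
open Pool.Agent.J4H26.AF (moves moves_pos)

theorem cw_mono {K : ℕ} {F G : (Fin K → ℤ) → ℝ} (h : ∀ z, F z ≤ G z) (n : ℕ) :
    ∀ z, cw F n z ≤ cw G n z := by
  induction n with
  | zero => intro z; exact h z
  | succ n ih =>
    intro z
    simp only [cw]
    apply div_le_div_of_nonneg_right _ (card_moves z).le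
    exact sum_le_sum fun p _ => ih _

theorem id1_mono {P Q : Prop} (h : P → Q) : id1 P ≤ id1 Q := by
  by_cases hP : P
  · rw [id1_pos hP, id1_pos (h hP)]
  · rw [id1_neg hP]; unfold id1; split_ifs <;> norm_num

theorem id1_mem (P : Prop) : 0 ≤ id1 P ∧ id1 P ≤ 1 := by
  unfold id1; split_ifs <;> norm_num

/-- the three conditions on `k` -/
theorem params (κ η η' δ : ℝ) (hη : 0 < η) (hη' : 0 < η') (hδ : 0 < δ) :
    ∃ k₀ : ℕ, ∀ k ≥ k₀, 1 ≤ k ∧ 2 * (k : ℝ) * Real.exp (-((1 + η') * Real.log k)) ≤ δ / 2 ∧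
      5 ≤ (η / 2) * √ (Real.log k) ∧ 0 < √ (Real.log k) ∧
      ((κ + η / 4) * √ (Real.log k) + 4) / ((η / 4) * √ (Real.log k)) ^ 2 ≤ δ / 2 := by
  have hL : Tendsto (fun k : ℕ => Real.log k) atTop atTop :=
    Real.tendsto_log_atTop.comp tendsto_natCast_atTop_atTop
  have hS : Tendsto (fun k : ℕ => √ (Real.log k)) atTop atTop :=
    Real.tendsto_sqrt_atTop.comp hL
  -- `2 exp (-η' log k) → 0`
  have h1 : Tendsto (fun k : ℕ => 2 * Real.exp (-(η' * Real.log k))) atTop (nhds (2 * 0)) := by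
    apply Tendsto.const_mul
    apply Real.tendsto_exp_neg_atTop_nhds_zero.comp
    exact hL.const_mul_atTop hη'
  rw [mul_zero] at h1
  have e1 : ∀ᶠ k : ℕ in atTop, 2 * Real.exp (-(η' * Real.log k)) ≤ δ / 2 := by
    have := (h1.eventually (gt_mem_nhds (half_pos hδ)))
    filter_upwards [this] with k hk using le_of_lt hk
  have e2 : ∀ᶠ k : ℕ in atTop, 5 ≤ (η / 2) * √ (Real.log k) :=
    (hS.const_mul_atTop (half_pos hη)).eventually_ge_atTop 5
  -- the last one
  let M : ℝ := (|κ + η / 4| + 4) / (η / 4) ^ 2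
  have hM : 0 ≤ M := by positivity
  have e3 : ∀ᶠ k : ℕ in atTop, max 1 (M / (δ / 2)) ≤ √ (Real.log k) := hS.eventually_ge_atTop _
  obtain ⟨k₀, hk₀⟩ := eventually_atTop.1 (e1.and (e2.and (e3.and (eventually_ge_atTop 1))))
  refine ⟨k₀, fun k hk => ?_⟩
  obtain ⟨a1, a2, a3, a4⟩ := hk₀ k hk
  have hk0 : (0 : ℝ) < k := by exact_mod_cast a4
  have b1 : 1 ≤ √ (Real.log k) := (le_max_left _ _).trans a3
  have b2 : M / (δ / 2) ≤ √ (Real.log k) := (le_max_right _ _).trans a3
  refine ⟨a4, ?_, a2, by linarith, ?_⟩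
  · have : 2 * (k : ℝ) * Real.exp (-((1 + η') * Real.log k)) = 2 * Real.exp (-(η' * Real.log k)) := by
      have e : -((1 + η') * Real.log k) = -(Real.log k) + -(η' * Real.log k) := by ring
      rw [e, Real.exp_add, Real.exp_neg (Real.log k), Real.exp_log hk0]
      field_simp
    rw [this]; exact a1
  · have hpos : 0 < ((η / 4) * √ (Real.log k)) ^ 2 := by positivity
    rw [div_le_iff₀ hpos]
    have b3 : M ≤ (δ / 2) * √ (Real.log k) := by
      rw [div_le_iff₀ (half_pos hδ)] at b2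
      linarith
    have b4 : |κ + η / 4| + 4 = M * (η / 4) ^ 2 := by
      simp only [M]
      field_simp
    calc (κ + η / 4) * √ (Real.log k) + 4
        ≤ |κ + η / 4| * √ (Real.log k) + 4 * √ (Real.log k) := by
          have := le_abs_self (κ + η / 4)
          nlinarith
      _ = M * (η / 4) ^ 2 * √ (Real.log k) := by rw [← b4]; ring
      _ ≤ ((δ / 2) * √ (Real.log k)) * (η / 4) ^ 2 * √ (Real.log k) := by
          have := mul_le_mul_of_nonneg_right b3 (by positivity : 0 ≤ (η / 4) ^ 2 * √ (Real.log k))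
          linarith
      _ = δ / 2 * ((η / 4) * √ (Real.log k)) ^ 2 := by ring

theorem t_MUP : S_UP → S_TAIL → S_MUP := by
  intro hUP hTAIL ρ η δ hρ hη hδ
  let κ : ℝ := √ (8 * ρ / π)
  have hκ : 0 < κ := Real.sqrt_pos.2 (by positivity)
  have hκ2 : κ ^ 2 = 8 * ρ / π := Real.sq_sqrt (by positivity)
  let η' : ℝ := η / (4 * κ)
  have hη' : 0 < η' := by positivity
  have hκη : (1 + η') * κ = κ + η / 4 := by
    simp only [η']; field_simp
  obtain ⟨k₀, hk₀⟩ := params κ η η' δ hη hη' hδ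
  refine ⟨k₀, fun k hk => ?_⟩
  obtain ⟨c1, c2, c3, c4, c5⟩ := hk₀ k hk
  refine ⟨1, ρ * η', by positivity, fun s n hs hsn => ?_⟩
  obtain ⟨L, hL⟩ : ∃ L, L = √ (Real.log k) := ⟨_, rfl⟩
  rw [← hL] at c3 c4 c5 ⊢
  have hlog : 0 ≤ Real.log k := Real.log_nonneg (by exact_mod_cast c1)
  have hL2 : L ^ 2 = Real.log k := by rw [hL]; exact Real.sq_sqrt hlog
  have hs1 : (1 : ℝ) ≤ s := by exact_mod_cast hs
  have hn : 1 ≤ n := by
    rcases Nat.eq_zero_or_pos n with h | h
    · subst h
      simp only [Nat.cast_zero, mul_zero, sub_zero] at hsn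
      have := le_abs_self (s : ℝ)
      linarith
    · exact h
  have hn1 : (1 : ℝ) ≤ n := by exact_mod_cast hn
  have hsρ : (s : ℝ) ≤ (1 + η') * ρ * n := by
    have := (le_abs_self _).trans hsn
    linarith
  let y : ℝ := √ ((1 + η') * s * Real.log k / 2)
  have hy0 : 0 ≤ y := Real.sqrt_nonneg _
  have hy2 : y ^ 2 = (1 + η') * s * Real.log k / 2 := Real.sq_sqrt (by positivity)
  let a : ℤ := ⌊(s : ℝ) / 2 - y⌋
  let b : ℤ := ⌈(s : ℝ) / 2 + y⌉
  have hab : a ≤ b := by
    have h1 : (a : ℝ) ≤ s / 2 - y := Int.floor_le _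
    have h2 : (s : ℝ) / 2 + y ≤ b := Int.le_ceil _
    have : (a : ℝ) ≤ b := by linarith
    exact_mod_cast this
  have hba : (b : ℝ) - a ≤ 2 * y + 2 := by
    have h1 : (s : ℝ) / 2 - y - 1 < a := Int.sub_one_lt_floor _
    have h2 : (b : ℝ) < s / 2 + y + 1 := Int.ceil_lt_add_one _
    linarith
  have hba0 : 0 ≤ (b : ℝ) - a := by
    have : (a : ℝ) ≤ b := by exact_mod_cast hab
    linarith
  -- the main estimate
  have hpin : 0 < √ (π * n) := Real.sqrt_pos.2 (by positivity)
  have hpin1 : 1 ≤ √ (π * n) := by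
    rw [Real.one_le_sqrt]
    have := Real.pi_gt_three
    nlinarith
  have hE : 2 * ((b : ℝ) - a) / √ (π * n) ≤ (κ + η / 4) * L + 4 := by
    have h1 : 4 * y / √ (π * n) ≤ (κ + η / 4) * L := by
      rw [div_le_iff₀ hpin]
      have hL0 : 0 ≤ L := c4.le
      rw [← pow_le_pow_iff_left₀ (by positivity) (by positivity) (two_ne_zero)]
      have e1 : (4 * y) ^ 2 = 8 * (1 + η') * s * Real.log k := by rw [mul_pow, hy2]; ring
      have e2 : ((κ + η / 4) * L * √ (π * n)) ^ 2 = (1 + η') ^ 2 * (8 * ρ) * Real.log k * n := by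
        rw [← hκη, mul_pow, mul_pow, mul_pow, hκ2, hL2, Real.sq_sqrt (by positivity)]
        field_simp
      rw [e1, e2]
      have := mul_le_mul_of_nonneg_left hsρ (by positivity : 0 ≤ 8 * (1 + η') * Real.log k)
      linarith
    have h2 : 4 / √ (π * n) ≤ 4 := by
      rw [div_le_iff₀ hpin]; linarith
    calc 2 * ((b : ℝ) - a) / √ (π * n) ≤ (4 * y + 4) / √ (π * n) := by
          apply div_le_div_of_nonneg_right _ hpin.le
          linarith
      _ = 4 * y / √ (π * n) + 4 / √ (π * n) := by ring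
      _ ≤ _ := add_le_add h1 h2
  have hr : 0 < (η / 4) * L := by positivity
  -- the pointwise bound
  have hpt : ∀ z : Fin k → ℤ, cw (fun y : Fin k → ℤ => id1 ((κ + η) * L ≤ (ncl y : ℝ))) n z ≤
      id1 (∃ i, y < |(z i : ℝ) - s / 2|) + δ / 2 := by
    intro z
    by_cases h : ∃ i, y < |(z i : ℝ) - s / 2|
    · rw [id1_pos h]
      have := (cw_mem (G := fun y : Fin k → ℤ => id1 ((κ + η) * L ≤ (ncl y : ℝ)))
        (fun z => (id1_mem _).1) (fun z => (id1_mem _).2) n z).2
      linarith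
    · rw [id1_neg h, zero_add]
      push Not at h
      have hz : ∀ i, a ≤ z i ∧ z i ≤ b := by
        intro i
        have hi := abs_le.1 (h i)
        constructor
        · have h1 : (a : ℝ) ≤ s / 2 - y := Int.floor_le _
          have : (a : ℝ) ≤ z i := by linarith [hi.1]
          exact_mod_cast this
        · have h1 : (s : ℝ) / 2 + y ≤ b := Int.le_ceil _
          have : (z i : ℝ) ≤ b := by linarith [hi.2]
          exact_mod_cast this
      have h1 := hUP k n z a b ((η / 4) * L) hn hr hab hz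
      refine (cw_mono (fun z' => id1_mono (fun hh => ?_)) n z).trans (h1.trans ?_)
      · calc 1 + 2 * ((b : ℝ) - a) / √ (π * n) + (η / 4) * L ≤ (κ + η) * L := by
              nlinarith
          _ ≤ _ := hh
      · refine le_trans ?_ c5
        apply div_le_div_of_nonneg_right hE
        positivity
  have hadd : ∀ (f : (Fin k → ℤ) → ℝ) (c : ℝ) (m : ℕ) (z : Fin k → ℤ),
      iw (fun z => f z + c) m z = iw f m z + c := by
    intro f c m
    induction m with
    | zero => intro z; rfl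
    | succ m ih =>
      intro z
      simp only [iw]
      rw [sum_congr rfl fun p _ => ih _, sum_add_distrib, add_div, sum_const, card_univ]
      simp
  refine (iw_mono hpt s (fun _ => 0)).trans ?_
  rw [hadd]
  have h2 := hTAIL k s y hy0
  have h3 : -2 * y ^ 2 / s = -((1 + η') * Real.log k) := by
    rw [hy2]
    field_simp
  rw [h3] at h2
  linarith

end Pool.Agent.J4H79.SC
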