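import Pool.Agent.J4H39.SC.Stm

/-! Project SC: (SA1), (SA2). -/

set_option autoImplicit false

namespace Pool.Agent.J4H79.SC

open Pool.Agent.J4H39 Pool.Agent.J4H39.SC Finset

theorem t_SA2 : S_SA2 := by
  intro H k m ε v V hV hb
  have hcov : (univ.filter fun h : Fin k → Fin H => m < ncl (fun i => v (h i))) ⊆
      univ.biUnion fun i : Fin k => univ.filter fun h : Fin k → Fin H => v (h i) ∉ V := by
    intro h hh
    rw [mem_filter] at hh
    rw [mem_biUnion]
    by_contra hc
    push Not at hc
    have : (univ.image fun i => v (h i)) ⊆ V := by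
      intro x hx
      rw [mem_image] at hx
      obtain ⟨i, -, rfl⟩ := hx
      have := hc i (mem_univ i)
      rw [mem_filter] at this
      push Not at this
      exact this (mem_univ _)
    have h2 := card_le_card this
    have h3 : ncl (fun i => v (h i)) = (univ.image fun i => v (h i)).card := rfl
    omega
  have hone : ∀ i : Fin k, ((univ.filter fun h : Fin k → Fin H => v (h i) ∉ V).card : ℝ)
      ≤ ε * (H : ℝ) ^ k := by
    intro i
    have h1 : (univ.filter fun h : Fin k → Fin H => v (h i) ∉ V)
        = Fintype.piFinset (Function.update (fun _ : Fin k => (univ : Finset (Fin H))) i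
            (univ.filter fun x => v x ∉ V)) := by
      ext h
      rw [mem_filter, Fintype.mem_piFinset]
      constructor
      · rintro ⟨-, h1⟩ j
        by_cases hj : j = i
        · subst hj
          rw [Function.update_self, mem_filter]
          exact ⟨mem_univ _, h1⟩
        · rw [Function.update_of_ne hj]
          exact mem_univ _
      · intro h1
        have := h1 i
        rw [Function.update_self, mem_filter] at this
        exact ⟨mem_univ _, this.2⟩
    have h2 : (univ.filter fun h : Fin k → Fin H => v (h i) ∉ V).card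
        = (univ.filter fun x => v x ∉ V).card * H ^ (k - 1) := by
      rw [h1, Fintype.card_piFinset]
      have e : ∀ j : Fin k, (Function.update (fun _ : Fin k => (univ : Finset (Fin H))) i
            (univ.filter fun x => v x ∉ V) j).card
            = Function.update (fun _ : Fin k => H) i (univ.filter fun x => v x ∉ V).card j := by
        intro j
        by_cases hj : j = i
        · subst hj; simp
        · simp [Function.update_of_ne hj]
      rw [prod_congr rfl fun j _ => e j, prod_update_of_mem (mem_univ i), prod_const]
      congr 2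
      rw [card_sdiff]
      simp
    have hk : 1 ≤ k := by have := i.2; omega
    rw [h2]
    push_cast
    obtain ⟨k', rfl⟩ : ∃ k', k = k' + 1 := ⟨k - 1, by omega⟩
    simp only [Nat.add_sub_cancel]
    calc ((univ.filter fun x => v x ∉ V).card : ℝ) * (H : ℝ) ^ k'
        ≤ (ε * H) * (H : ℝ) ^ k' := mul_le_mul_of_nonneg_right hb (by positivity)
      _ = ε * (H : ℝ) ^ (k' + 1) := by ring
  calc ((univ.filter fun h : Fin k → Fin H => m < ncl (fun i => v (h i))).card : ℝ)
      ≤ ((univ.biUnion fun i : Fin k => univ.filter fun h : Fin k → Fin H => v (h i) ∉ V).card : ℝ) := by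
        exact_mod_cast card_le_card hcov
    _ ≤ ((∑ i : Fin k, (univ.filter fun h : Fin k → Fin H => v (h i) ∉ V).card : ℕ) : ℝ) := by
        exact_mod_cast card_biUnion_le
    _ = ∑ i : Fin k, ((univ.filter fun h : Fin k → Fin H => v (h i) ∉ V).card : ℝ) := by
        push_cast; rfl
    _ ≤ ∑ _i : Fin k, ε * (H : ℝ) ^ k := sum_le_sum fun i _ => hone i
    _ = k * ε * (H : ℝ) ^ k := by rw [sum_const, card_univ]; simp; ring

theorem t_SA1 : S_SA1 := by
  intro H k m ε v hε hH hV
  let W : (n : ℕ) → (Fin n → Fin H) → Finset ℤ := fun n h => univ.image fun i => v (h i)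
  let F : ℕ → ℝ := fun n => ∑ h : Fin n → Fin H, ((min (W n h).card (m + 1) : ℕ) : ℝ)
  let G : ℕ → ℝ := fun n => ∑ h : Fin n → Fin H, (if (W n h).card ≤ m then (1 : ℝ) else 0)
  have hsum : ∀ (n : ℕ) (f : (Fin (n + 1) → Fin H) → ℝ), ∑ h, f h
      = ∑ h : Fin n → Fin H, ∑ x : Fin H, f (Fin.cons x h) := by
    intro n f
    rw [← (Fin.consEquiv (fun _ : Fin (n + 1) => Fin H)).sum_comp, Fintype.sum_prod_type, sum_comm]
    rfl
  have hW : ∀ (n : ℕ) (h : Fin n → Fin H) (x : Fin H), W (n + 1) (Fin.cons x h) = insert (v x) (W n h) := by
    intro n h x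
    ext y
    simp only [W, mem_image, mem_univ, true_and, mem_insert, Fin.exists_fin_succ, Fin.cons_zero,
      Fin.cons_succ]
    constructor
    · rintro (h | h)
      · exact Or.inl h.symm
      · exact Or.inr h
    · rintro (h | h)
      · exact Or.inl h.symm
      · exact Or.inr h
  have hF : ∀ n, (H : ℝ) * F n + ε * H * G n ≤ F (n + 1) := by
    intro n
    simp only [F, G]
    rw [hsum, mul_sum, mul_sum, ← sum_add_distrib]
    refine sum_le_sum fun h _ => ?_
    by_cases hc : (W n h).card ≤ m
    · rw [if_pos hc]
      have e1 : ∀ x : Fin H, ((min (W (n + 1) (Fin.cons x h)).card (m + 1) : ℕ) : ℝ)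
          = ((min (W n h).card (m + 1) : ℕ) : ℝ) + (if v x ∉ W n h then (1 : ℝ) else 0) := by
        intro x
        rw [hW]
        by_cases hx : v x ∈ W n h
        · rw [insert_eq_of_mem hx]; simp [hx]
        · rw [card_insert_of_notMem hx]
          simp only [hx, not_false_eq_true, if_true]
          have : min ((W n h).card + 1) (m + 1) = min (W n h).card (m + 1) + 1 := by omega
          rw [this]; push_cast; ring
      rw [sum_congr rfl fun x _ => e1 x, sum_add_distrib, sum_const, card_univ, Fintype.card_fin,
        nsmul_eq_mul]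
      have e2 : (∑ x : Fin H, if v x ∉ W n h then (1 : ℝ) else 0)
          = ((univ.filter fun x => v x ∉ W n h).card : ℝ) := by
        rw [sum_ite]; simp
      rw [e2]
      have := hV (W n h) hc
      linarith
    · rw [if_neg hc]
      have e1 : ∀ x : Fin H, ((min (W n h).card (m + 1) : ℕ) : ℝ)
          ≤ ((min (W (n + 1) (Fin.cons x h)).card (m + 1) : ℕ) : ℝ) := by
        intro x
        rw [hW]
        have : (W n h).card ≤ (insert (v x) (W n h)).card := card_le_card (subset_insert _ _)
        have : min (W n h).card (m + 1) ≤ min (insert (v x) (W n h)).card (m + 1) := by omega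
        exact_mod_cast this
      have e2 := sum_le_sum fun (x : Fin H) (_ : x ∈ univ) => e1 x
      rw [sum_const, card_univ, Fintype.card_fin, nsmul_eq_mul] at e2
      linarith
  have hG : ∀ n, G (n + 1) ≤ H * G n := by
    intro n
    simp only [G]
    rw [hsum, mul_sum]
    refine sum_le_sum fun h _ => ?_
    have e1 : ∀ x : Fin H, (if (W (n + 1) (Fin.cons x h)).card ≤ m then (1 : ℝ) else 0)
        ≤ (if (W n h).card ≤ m then (1 : ℝ) else 0) := by
      intro x
      rw [hW]
      have : (W n h).card ≤ (insert (v x) (W n h)).card := card_le_card (subset_insert _ _)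
      split_ifs with h1 h2
      · exact le_rfl
      · omega
      · exact zero_le_one
      · exact le_rfl
    have e2 := sum_le_sum fun (x : Fin H) (_ : x ∈ univ) => e1 x
    rw [sum_const, card_univ, Fintype.card_fin, nsmul_eq_mul] at e2
    exact e2
  have hG0 : ∀ n, 0 ≤ G n := fun n => sum_nonneg fun h _ => by split_ifs <;> norm_num
  have hind : ∀ n : ℕ, ε * n * G n ≤ F n := by
    intro n
    induction n with
    | zero =>
      simp only [Nat.cast_zero, mul_zero, zero_mul]
      exact sum_nonneg fun h _ => by positivity
    | succ n ih =>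
      have h1 := hF n
      have h2 := hG n
      have h3 := hG0 n
      have hH' : (0 : ℝ) ≤ H := by positivity
      push_cast
      calc ε * (n + 1) * G (n + 1) ≤ ε * (n + 1) * (H * G n) :=
            mul_le_mul_of_nonneg_left h2 (by positivity)
        _ = H * (ε * n * G n) + ε * H * G n := by ring
        _ ≤ H * F n + ε * H * G n := by
            have := mul_le_mul_of_nonneg_left ih hH'
            linarith
        _ ≤ F (n + 1) := h1
  have hFk : F k ≤ (m + 1) * (H : ℝ) ^ k := by
    simp only [F]
    calc ∑ h : Fin k → Fin H, ((min (W k h).card (m + 1) : ℕ) : ℝ)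
        ≤ ∑ _h : Fin k → Fin H, ((m : ℝ) + 1) := sum_le_sum fun h _ => by
          have : min (W k h).card (m + 1) ≤ m + 1 := min_le_right _ _
          exact_mod_cast this
      _ = (m + 1) * (H : ℝ) ^ k := by
          rw [sum_const, card_univ]; simp; ring
  have hGk : G k = ((univ.filter fun h : Fin k → Fin H => ncl (fun i => v (h i)) ≤ m).card : ℝ) := by
    simp only [G]
    rw [sum_ite]
    simp only [sum_const, nsmul_eq_mul, mul_one, mul_zero, add_zero]
    congr 2
  rw [← hGk]
  exact (hind k).trans hFk

end Pool.Agent.J4H79.SC
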