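import Pool.Agent.J4H39.SC.Stm

/-! Project SC: (TAIL). -/

set_option autoImplicit false

namespace Pool.Agent.J4H79.SC

open Pool.Agent.J4H39 Pool.Agent.J4H39.SC Finset Real

variable {K : ℕ}

/-- mean over one coordinate of the steps -/
theorem avg_one (i : Fin K) (φ : Fin 2 → ℝ) :
    (∑ p : Fin K → Fin 2, φ (p i)) / 2 ^ K = (φ 0 + φ 1) / 2 := by
  have hinv : Function.Involutive (fun p : Fin K → Fin 2 => Function.update p i (1 - p i)) := by
    intro p
    simp only [Function.update_self, Function.update_idem]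
    have : (1 : Fin 2) - (1 - p i) = p i := by
      generalize p i = q
      revert q; decide
    rw [this, Function.update_eq_self]
  have h1 : ∑ p : Fin K → Fin 2, φ (p i) = ∑ p : Fin K → Fin 2, φ (1 - p i) := by
    have := (Equiv.sum_comp (Function.Involutive.toPerm _ hinv) fun p : Fin K → Fin 2 => φ (p i)).symm
    rw [this]
    refine sum_congr rfl fun p _ => ?_
    show φ (Function.update p i (1 - p i) i) = _
    rw [Function.update_self]
  have h2 : 2 * ∑ p : Fin K → Fin 2, φ (p i) = ∑ _p : Fin K → Fin 2, (φ 0 + φ 1) := by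
    rw [two_mul]
    nth_rw 2 [h1]
    rw [← sum_add_distrib]
    refine sum_congr rfl fun p _ => ?_
    generalize p i = q
    fin_cases q
    · simp
    · simp only [Fin.mk_one, sub_self]; ring
  rw [sum_const, card_univ] at h2
  simp only [Fintype.card_pi, Fintype.card_fin, prod_const, card_univ, nsmul_eq_mul] at h2
  push_cast at h2
  field_simp
  linarith

theorem iw_exp (i : Fin K) (l : ℝ) (n : ℕ) : ∀ z : Fin K → ℤ,
    iw (fun z : Fin K → ℤ => Real.exp (l * z i)) n z
      = ((1 + Real.exp l) / 2) ^ n * Real.exp (l * z i) := by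
  induction n with
  | zero => intro z; simp [iw]
  | succ n ih =>
    intro z
    simp only [iw]
    rw [sum_congr rfl fun p _ => ih _]
    have e : ∀ p : Fin K → Fin 2, ((1 + Real.exp l) / 2) ^ n * Real.exp (l * ((z i + ((p i : ℕ) : ℤ) : ℤ) : ℝ))
        = (((1 + Real.exp l) / 2) ^ n * Real.exp (l * z i)) * Real.exp (l * ((p i : ℕ) : ℝ)) := by
      intro p
      push_cast
      rw [mul_add, Real.exp_add]
      ring
    rw [sum_congr rfl fun p _ => e p, ← mul_sum, mul_div_assoc,
      avg_one i (fun q => Real.exp (l * ((q : ℕ) : ℝ)))]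
    simp
    ring

theorem iw_smul (c : ℝ) (G : (Fin K → ℤ) → ℝ) (n : ℕ) : ∀ z,
    iw (fun z => c * G z) n z = c * iw G n z := by
  induction n with
  | zero => intro z; rfl
  | succ n ih =>
    intro z
    simp only [iw]
    rw [sum_congr rfl fun p _ => ih _, ← mul_sum, mul_div_assoc]

theorem chern (i : Fin K) (s : ℕ) (y : ℝ) (hy : 0 ≤ y) :
    iw (fun z : Fin K → ℤ => id1 (y < |(z i : ℝ) - s / 2|)) s (fun _ => 0)
      ≤ 2 * Real.exp (-2 * y ^ 2 / s) := by
  rcases Nat.eq_zero_or_pos s with h0 | hs
  · subst h0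
    have := (iw_mem (G := fun z : Fin K → ℤ => id1 (y < |(z i : ℝ) - (0 : ℕ) / 2|))
      (fun z => by unfold id1; split_ifs <;> norm_num)
      (fun z => by unfold id1; split_ifs <;> norm_num) 0 (fun _ => 0)).2
    simp only [Nat.cast_zero, div_zero, Real.exp_zero] at this ⊢
    linarith
  · have hs' : (0 : ℝ) < s := by exact_mod_cast hs
    let l : ℝ := 4 * y / s
    have hl : 0 ≤ l := by positivity
    -- pointwise bound
    have h1 : ∀ z : Fin K → ℤ, id1 (y < |(z i : ℝ) - s / 2|) ≤
        Real.exp (- l * y - l * (s / 2)) * Real.exp (l * z i)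
          + Real.exp (- l * y + l * (s / 2)) * Real.exp ((-l) * z i) := by
      intro z
      unfold id1
      split_ifs with h
      · rcases lt_abs.1 h with h | h
        · have : 1 ≤ Real.exp (- l * y - l * (s / 2)) * Real.exp (l * z i) := by
            rw [← Real.exp_add]
            apply Real.one_le_exp
            have : 0 ≤ l * ((z i : ℝ) - s / 2 - y) := mul_nonneg hl (by linarith)
            linarith
          have h2 : 0 ≤ Real.exp (- l * y + l * (s / 2)) * Real.exp ((-l) * z i) := by positivity
          linarith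
        · have : 1 ≤ Real.exp (- l * y + l * (s / 2)) * Real.exp ((-l) * z i) := by
            rw [← Real.exp_add]
            apply Real.one_le_exp
            have : 0 ≤ l * (-((z i : ℝ) - s / 2) - y) := mul_nonneg hl (by linarith)
            linarith
          have h2 : 0 ≤ Real.exp (- l * y - l * (s / 2)) * Real.exp (l * z i) := by positivity
          linarith
      · positivity
    have h2 := iw_mono h1 s (fun _ => 0)
    have h3 : iw (fun z : Fin K → ℤ => Real.exp (- l * y - l * (s / 2)) * Real.exp (l * z i)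
          + Real.exp (- l * y + l * (s / 2)) * Real.exp ((-l) * z i)) s (fun _ => 0)
        = Real.exp (- l * y - l * (s / 2)) * ((1 + Real.exp l) / 2) ^ s
          + Real.exp (- l * y + l * (s / 2)) * ((1 + Real.exp (-l)) / 2) ^ s := by
      have e1 := iw_fsum (univ : Finset (Fin 2)) (fun (q : Fin 2) (z : Fin K → ℤ) =>
        (if q = 0 then Real.exp (- l * y - l * (s / 2)) else Real.exp (- l * y + l * (s / 2)))
          * Real.exp ((if q = 0 then l else -l) * z i)) s (fun _ => 0)
      simp only [Fin.sum_univ_two, if_true] at e1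
      simp only [iw_smul, iw_exp] at e1
      simpa using e1
    rw [h3] at h2
    have h4 : ∀ t : ℝ, Real.exp (- (t * (s / 2))) * ((1 + Real.exp t) / 2) ^ s ≤ Real.exp (t ^ 2 * s / 8) := by
      intro t
      have e1 : Real.exp (- (t * (s / 2))) = Real.exp (-(t / 2)) ^ s := by
        rw [← Real.exp_nat_mul]
        congr 1
        ring
      rw [e1, ← mul_pow]
      have e2 : Real.exp (-(t / 2)) * ((1 + Real.exp t) / 2) = Real.cosh (t / 2) := by
        rw [Real.cosh_eq]
        have : Real.exp t = Real.exp (t / 2) * Real.exp (t / 2) := by rw [← Real.exp_add]; ring_nf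
        rw [this]
        have h' : Real.exp (-(t / 2)) * Real.exp (t / 2) = 1 := by rw [← Real.exp_add]; simp
        linear_combination (Real.exp (t / 2) / 2) * h'
      rw [e2]
      have e3 := Real.cosh_le_exp_half_sq (t / 2)
      have e4 : 0 ≤ Real.cosh (t / 2) := (Real.cosh_pos _).le
      calc Real.cosh (t / 2) ^ s ≤ Real.exp ((t / 2) ^ 2 / 2) ^ s := pow_le_pow_left₀ e4 e3 s
        _ = Real.exp (t ^ 2 * s / 8) := by
          rw [← Real.exp_nat_mul]
          congr 1
          ring
    have h5 : Real.exp (- l * y - l * (s / 2)) * ((1 + Real.exp l) / 2) ^ s ≤ Real.exp (-2 * y ^ 2 / s) := by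
      have e1 : Real.exp (- l * y - l * (s / 2)) = Real.exp (- l * y) * Real.exp (-(l * (s / 2))) := by
        rw [← Real.exp_add]; ring_nf
      rw [e1, mul_assoc]
      refine (mul_le_mul_of_nonneg_left (h4 l) (Real.exp_pos _).le).trans ?_
      rw [← Real.exp_add]
      apply Real.exp_le_exp.2
      simp only [l]
      apply le_of_eq
      field_simp
      ring
    have h6 : Real.exp (- l * y + l * (s / 2)) * ((1 + Real.exp (-l)) / 2) ^ s ≤ Real.exp (-2 * y ^ 2 / s) := by
      have e1 : Real.exp (- l * y + l * (s / 2)) = Real.exp (- l * y) * Real.exp (-(-l * (s / 2))) := by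
        rw [← Real.exp_add]; ring_nf
      rw [e1, mul_assoc]
      refine (mul_le_mul_of_nonneg_left (h4 (-l)) (Real.exp_pos _).le).trans ?_
      rw [← Real.exp_add]
      apply Real.exp_le_exp.2
      simp only [l]
      apply le_of_eq
      field_simp
      ring
    linarith

theorem t_TAIL : S_TAIL := by
  intro K s y hy
  have h1 : ∀ z : Fin K → ℤ, id1 (∃ i, y < |(z i : ℝ) - s / 2|) ≤
      ∑ i : Fin K, id1 (y < |(z i : ℝ) - s / 2|) := by
    intro z
    have hn : ∀ i, 0 ≤ id1 (y < |(z i : ℝ) - s / 2|) := fun i => by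
      unfold id1; split_ifs <;> norm_num
    by_cases h : ∃ i, y < |(z i : ℝ) - s / 2|
    · obtain ⟨i, hi⟩ := h
      rw [id1_pos ⟨i, hi⟩]
      have := single_le_sum (fun j _ => hn j) (mem_univ i)
      rw [id1_pos hi] at this
      exact this
    · rw [id1_neg h]
      exact sum_nonneg fun i _ => hn i
  refine (iw_mono h1 s (fun _ => 0)).trans ?_
  rw [iw_fsum]
  refine (sum_le_sum fun i _ => chern i s y hy).trans (le_of_eq ?_)
  rw [sum_const, card_univ]
  simp
  ring

end Pool.Agent.J4H79.SC
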